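import Mathlib
import Pool.Agent.J4.H38.GD.Defs
import Pool.Agent.J4.H38.SR2.Fix2
import Pool.Agent.J4.H38.SR2.Gold1
import Pool.Agent.Y822.CTu

/-! Project GD (helper38), piece SM: the number of the shifts (`AB_card`), the density of one shift (`gg_bd2`), Mertens' lower
bound (`Vz_low`). -/

set_option autoImplicit false

namespace Pool.Agent.J4.H14.GD

open Finset Filter
open Pool.Agent.Y822 (Ro ro)
open Pool.Agent.H373R2.T7 (pz Vz mem_pz rhoA PerA lam_fund)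
open Pool.Agent.J4.H38.SR2 (sh card_sh QW perA_QW)
open Pool.Agent.J4.H38.DV (GG Fs Ft)
open Pool.Agent.J4.H38.GD (AB Pw phW bG muR)

lemma primeFactors_W (w : ℕ) : (∏ p ∈ pz w, p).primeFactors = pz w :=
  Nat.primeFactors_prod fun _ hp => (mem_pz.1 hp).2

lemma W_pos (w : ℕ) : 0 < ∏ p ∈ pz w, p := prod_pos fun _ hp => (mem_pz.1 hp).2.pos

lemma Vz_nonneg (w : ℕ) : 0 ≤ Vz w ∧ Vz w ≤ 1 := by
  have hb : ∀ p ∈ pz w, 0 ≤ 1 - 1 / (p : ℝ) ∧ 1 - 1 / (p : ℝ) ≤ 1 := by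
    intro p hp
    have h2 : (2 : ℝ) ≤ p := by exact_mod_cast (mem_pz.1 hp).2.two_le
    have h3 : 1 / (p : ℝ) ≤ 1 := by rw [div_le_one (by linarith)]; linarith
    have h4 : 0 ≤ 1 / (p : ℝ) := by positivity
    constructor <;> linarith
  unfold Vz
  exact ⟨prod_nonneg fun p hp => (hb p hp).1, prod_le_one (fun p hp => (hb p hp).1) fun p hp => (hb p hp).2⟩

lemma Vz_pos (w : ℕ) : 0 < Vz w := by
  unfold Vz
  refine prod_pos fun p hp => ?_
  have h2 : (2 : ℝ) ≤ p := by exact_mod_cast (mem_pz.1 hp).2.two_le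
  have h3 : 1 / (p : ℝ) < 1 := by rw [div_lt_one (by linarith)]; linarith
  linarith

lemma totient_W (w : ℕ) : (((∏ p ∈ pz w, p).totient : ℕ) : ℝ) = ((∏ p ∈ pz w, p : ℕ) : ℝ) * Vz w := by
  have h := Nat.totient_eq_mul_prod_factors (∏ p ∈ pz w, p)
  rw [primeFactors_W] at h
  have h2 : (((∏ p ∈ pz w, p).totient : ℚ) : ℝ) =
      (((((∏ p ∈ pz w, p : ℕ) : ℕ) : ℚ) * ∏ p ∈ pz w, (1 - (p : ℚ)⁻¹) : ℚ) : ℝ) := by rw [h]
  rw [Rat.cast_mul, Rat.cast_prod] at h2
  push_cast at h2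
  unfold Vz
  push_cast
  rw [h2]
  congr 1
  exact prod_congr rfl fun p _ => by rw [one_div]

lemma cop_iff (w x : ℕ) : (∏ p ∈ pz w, p).Coprime x ↔ ∀ p ∈ pz w, ¬ p ∣ x := by
  rw [Nat.coprime_prod_left_iff]
  refine forall₂_congr fun p hp => ?_
  exact (mem_pz.1 hp).2.coprime_iff_not_dvd

lemma count_low (W n q : ℕ) : q * W.totient ≤ ((Ico n (n + q * W)).filter (fun x => W.Coprime x)).card := by
  induction q with
  | zero => simp
  | succ q ih =>
    have h1 : Ico n (n + (q + 1) * W) = Ico n (n + q * W) ∪ Ico (n + q * W) (n + q * W + W) := by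
      rw [Ico_union_Ico_eq_Ico (by omega) (by omega)]
      congr 1
      ring
    have h2 : Disjoint ((Ico n (n + q * W)).filter (fun x => W.Coprime x))
        ((Ico (n + q * W) (n + q * W + W)).filter (fun x => W.Coprime x)) := by
      refine disjoint_filter_filter ?_
      exact Ico_disjoint_Ico_consecutive _ _ _
    rw [h1, filter_union, card_union_of_disjoint h2, Nat.filter_coprime_Ico_eq_totient]
    rw [add_mul, one_mul]
    exact Nat.add_le_add_right ih _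

theorem AB_card (w : ℕ) : ∃ H₀ : ℕ, ∀ H b : ℕ, H₀ ≤ H → 1 / 2 * Vz w * H ≤ (AB w b H).card ∧ ((AB w b H).card : ℝ) ≤ H := by
  obtain ⟨W, hW⟩ : ∃ W, W = ∏ p ∈ pz w, p := ⟨_, rfl⟩
  have hW0 : 0 < W := by rw [hW]; exact W_pos w
  refine ⟨2 * W, fun H b hH => ⟨?_, ?_⟩⟩
  · have h1 : (AB w b H).card = ((Ico (b + 1) (b + 1 + H)).filter (fun x => W.Coprime x)).card := by
      refine card_bij (fun t _ => t + b) ?_ ?_ ?_
      · intro t ht
        unfold AB at ht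
        rw [mem_filter, mem_Icc] at ht
        rw [mem_filter, mem_Ico, hW, cop_iff]
        exact ⟨by omega, ht.2⟩
      · intro t _ t' _ h
        exact Nat.add_right_cancel h
      · intro x hx
        rw [mem_filter, mem_Ico, hW, cop_iff] at hx
        refine ⟨x - b, ?_, by omega⟩
        unfold AB
        rw [mem_filter, mem_Icc]
        refine ⟨by omega, ?_⟩
        rw [show x - b + b = x by omega]
        exact hx.2
    have h2 : H / W * W.totient ≤ (AB w b H).card := by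
      rw [h1]
      refine (count_low W (b + 1) (H / W)).trans (card_le_card ?_)
      refine filter_subset_filter _ (Ico_subset_Ico_right ?_)
      have := Nat.div_mul_le_self H W
      omega
    have h3 : ((W.totient : ℕ) : ℝ) = W * Vz w := by
      rw [hW]
      exact totient_W w
    have h4 : (H : ℝ) ≤ W * ((H / W : ℕ) + 1) := by
      have := (Nat.lt_mul_div_succ H hW0).le
      exact_mod_cast this
    have h5 : ((H / W : ℕ) : ℝ) * (W * Vz w) ≤ (AB w b H).card := by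
      rw [← h3]
      exact_mod_cast h2
    have h6 : 2 * (W : ℝ) ≤ H := by exact_mod_cast hH
    have h7 := Vz_nonneg w
    have h8 : 1 / 2 * (H : ℝ) ≤ W * (H / W : ℕ) := by
      rw [mul_add, mul_one] at h4
      linarith
    calc 1 / 2 * Vz w * H = 1 / 2 * (H : ℝ) * Vz w := by ring
      _ ≤ W * (H / W : ℕ) * Vz w := mul_le_mul_of_nonneg_right h8 h7.1
      _ = ((H / W : ℕ) : ℝ) * (W * Vz w) := by ring
      _ ≤ _ := h5
  · have h : (AB w b H).card ≤ H := by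
      unfold AB
      exact (card_filter_le _ _).trans (by simp)
    exact_mod_cast h

lemma tel (y : ℕ) (hy : 2 ≤ y) :
    ∏ n ∈ Icc 3 y, (1 - 1 / ((n : ℝ) - 1) ^ 2) = (y : ℝ) / (2 * ((y : ℝ) - 1)) := by
  induction y, hy using Nat.le_induction with
  | base => norm_num
  | succ y hy ih =>
    have hy0 : (2 : ℝ) ≤ y := by exact_mod_cast hy
    rw [prod_Icc_succ_top (by omega : 3 ≤ y + 1), ih]
    push_cast
    have h1 : (y : ℝ) ≠ 0 := by positivity
    have h2 : (y : ℝ) - 1 ≠ 0 := by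
      have : (0 : ℝ) < y - 1 := by linarith
      exact this.ne'
    have h3 : (y : ℝ) + 1 - 1 ≠ 0 := by
      rw [add_sub_cancel_right]; exact h1
    field_simp
    ring

theorem gg_bd2 (w y : ℕ) (hw : 2 ≤ w) (hwy : w ≤ y) :
    1 / 2 * (Vz y / Vz w) ≤ GG w y ∧ GG w y ≤ Vz y / Vz w := by
  have hS : (pz y).filter (fun p => w < p) ⊆ Icc 3 y := by
    intro p hp
    rw [mem_filter, mem_pz] at hp
    rw [mem_Icc]
    omega
  have hge : ∀ p ∈ (pz y).filter (fun p => w < p), (3 : ℝ) ≤ p := by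
    intro p hp
    have := (mem_Icc.1 (hS hp)).1
    exact_mod_cast this
  have hfac : ∀ n ∈ Icc 3 y, 0 ≤ 1 - 1 / ((n : ℝ) - 1) ^ 2 ∧ 1 - 1 / ((n : ℝ) - 1) ^ 2 ≤ 1 := by
    intro n hn
    have h3 : (3 : ℝ) ≤ n := by exact_mod_cast (mem_Icc.1 hn).1
    have h4 : (1 : ℝ) ≤ ((n : ℝ) - 1) ^ 2 := by nlinarith
    have h5 : 0 ≤ 1 / ((n : ℝ) - 1) ^ 2 := by positivity
    have h6 : 1 / ((n : ℝ) - 1) ^ 2 ≤ 1 := by
      rw [div_le_one (by linarith)]; exact h4
    constructor <;> linarith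
  have key : (1 / 2 : ℝ) ≤ ∏ p ∈ (pz y).filter (fun p => w < p), (1 - 1 / ((p : ℝ) - 1) ^ 2) := by
    have h1 := prod_sdiff (f := fun p : ℕ => 1 - 1 / ((p : ℝ) - 1) ^ 2) hS
    have h2 : ∏ p ∈ Icc 3 y \ (pz y).filter (fun p => w < p), (1 - 1 / ((p : ℝ) - 1) ^ 2) ≤ 1 :=
      prod_le_one (fun p hp => (hfac p (mem_sdiff.1 hp).1).1) (fun p hp => (hfac p (mem_sdiff.1 hp).1).2)
    have h3 : 0 ≤ ∏ p ∈ (pz y).filter (fun p => w < p), (1 - 1 / ((p : ℝ) - 1) ^ 2) :=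
      prod_nonneg fun p hp => (hfac p (hS hp)).1
    have h4 := tel y (hw.trans hwy)
    have hy2 : (2 : ℝ) ≤ y := by exact_mod_cast hw.trans hwy
    have h5 : (1 / 2 : ℝ) ≤ (y : ℝ) / (2 * ((y : ℝ) - 1)) := by
      rw [div_le_div_iff₀ (by norm_num) (by linarith)]
      linarith
    rw [h4] at h1
    calc (1 / 2 : ℝ) ≤ (y : ℝ) / (2 * ((y : ℝ) - 1)) := h5
      _ = _ := h1.symm
      _ ≤ 1 * ∏ p ∈ (pz y).filter (fun p => w < p), (1 - 1 / ((p : ℝ) - 1) ^ 2) :=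
          mul_le_mul_of_nonneg_right h2 h3
      _ = _ := one_mul _
  have key2 : ∏ p ∈ (pz y).filter (fun p => w < p), (1 - 1 / ((p : ℝ) - 1) ^ 2) ≤ 1 :=
    prod_le_one (fun p hp => (hfac p (hS hp)).1) (fun p hp => (hfac p (hS hp)).2)
  have hV : Vz y / Vz w = ∏ p ∈ (pz y).filter (fun p => w < p), (1 - 1 / (p : ℝ)) := by
    rw [div_eq_iff (Vz_pos w).ne']
    unfold Vz
    rw [← prod_filter_mul_prod_filter_not (pz y) (fun p => w < p) (fun p : ℕ => 1 - 1 / (p : ℝ))]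
    congr 1
    refine prod_congr ?_ fun _ _ => rfl
    ext p
    rw [mem_filter, mem_pz, mem_pz]
    constructor
    · rintro ⟨⟨h1, h2⟩, h3⟩
      exact ⟨by omega, h2⟩
    · rintro ⟨h1, h2⟩
      exact ⟨⟨h1.trans hwy, h2⟩, by omega⟩
  have e : GG w y = (∏ p ∈ (pz y).filter (fun p => w < p), (1 - 1 / ((p : ℝ) - 1) ^ 2)) * (Vz y / Vz w) := by
    rw [hV]
    unfold GG
    rw [← prod_mul_distrib]
    refine prod_congr rfl fun p hp => ?_
    have h3 := hge p hp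
    have h1 : (p : ℝ) ≠ 0 := by positivity
    have h2 : (p : ℝ) - 1 ≠ 0 := by
      have : (0 : ℝ) < p - 1 := by linarith
      exact this.ne'
    field_simp
    ring
  have hq : 0 ≤ Vz y / Vz w := div_nonneg (Vz_nonneg y).1 (Vz_nonneg w).1
  rw [e]
  exact ⟨mul_le_mul_of_nonneg_right key hq, mul_le_of_le_one_left hq key2⟩

theorem Vz_low : ∃ c : ℝ, 0 < c ∧ ∀ w : ℕ, 3 ≤ w → c / Real.log w ≤ Vz w ∧ Vz w ≤ 1 := by
  obtain ⟨c, hc, h⟩ := Pool.Agent.Y822.Vz_sharp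
  exact ⟨c, hc, fun w hw => ⟨h w hw, (Vz_nonneg w).2⟩⟩

end Pool.Agent.J4.H14.GD
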