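import Mathlib
import Pool.Agent.J4.H38.GD.Defs
import Pool.Agent.J4.H38.SR2.Fix2
import Pool.Agent.J4.H38.SR2.Gold1

/-! Project GD (helper38), pieces XR and XRT: the weighted number of the prime powers in a residue class with rough positions. -/

set_option autoImplicit false

namespace Pool.Agent.J4.H14.GD

open Finset Filter
open Pool.Agent.Y822 (Ro ro)
open Pool.Agent.H373R2.T7 (pz Vz mem_pz rhoA PerA lam_fund)
open Pool.Agent.J4.H38.SR2 (sh card_sh QW perA_QW)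
open Pool.Agent.J4.H38.DV (GG Fs Ft)
open Pool.Agent.J4.H38.GD (AB Pw phW bG muR)

/-- the condition `n ≡ r` at the primes up to `w`, and `Q` at the larger ones -/
def QR (w r : ℕ) (Q : ℕ → ℕ → Prop) (p n : ℕ) : Prop := (p ≤ w ∧ ¬ n ≡ r [MOD p]) ∨ (w < p ∧ Q p n)

lemma rhoA_QR_small {w r p : ℕ} (Q : ℕ → ℕ → Prop) (hp : p.Prime) (hpw : p ≤ w) (hr : ¬ p ∣ r) :
    rhoA (QR w r Q) p + 2 = p := by
  classical
  unfold rhoA
  have h : (range p).filter (fun s => ¬ p ∣ s ∧ QR w r Q p s) = ((range p).erase 0).erase (r % p) := by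
    ext s
    rw [mem_filter, mem_range, mem_erase, mem_erase, mem_range]
    unfold QR
    constructor
    · rintro ⟨h1, h2, h3⟩
      rcases h3 with ⟨_, h3⟩ | ⟨h3, _⟩
      · refine ⟨?_, ?_, h1⟩
        · intro h4
          apply h3
          rw [h4]
          exact Nat.mod_modEq r p
        · rintro rfl
          exact h2 (dvd_zero p)
      · omega
    · rintro ⟨h1, h2, h3⟩
      refine ⟨h3, fun h4 => h2 (Nat.eq_zero_of_dvd_of_lt h4 h3), Or.inl ⟨hpw, fun h4 => h1 ?_⟩⟩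
      have h5 : s % p = r % p := h4
      rwa [Nat.mod_eq_of_lt h3] at h5
  have h0 : r % p ≠ 0 := fun h1 => hr (Nat.dvd_of_mod_eq_zero h1)
  have h2 := hp.two_le
  calc _ = (((range p).erase 0).erase (r % p)).card + 2 := by
        congr 1
        rw [← h]
    _ = p := by
        rw [card_erase_of_mem, card_erase_of_mem, card_range]
        · omega
        · exact mem_range.2 hp.pos
        · exact mem_erase.2 ⟨h0, mem_range.2 (Nat.mod_lt _ hp.pos)⟩

lemma rhoA_QR_big {w r p : ℕ} (Q : ℕ → ℕ → Prop) (hpw : w < p) : rhoA (QR w r Q) p = rhoA Q p := by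
  classical
  unfold rhoA
  congr 1
  refine filter_congr fun s _ => ?_
  unfold QR
  constructor
  · rintro ⟨h1, h2⟩
    rcases h2 with ⟨h2, _⟩ | ⟨_, h2⟩
    · omega
    · exact ⟨h1, h2⟩
  · rintro ⟨h1, h2⟩
    exact ⟨h1, Or.inr ⟨hpw, h2⟩⟩

lemma perA_QR (w r k : ℕ) (Q : ℕ → ℕ → Prop) (hQ : PerA Q (k + 1)) : PerA (QR w r Q) (k + 1 + w) := by
  classical
  constructor
  · intro p n
    unfold QR
    have h1 : n ≡ r [MOD p] ↔ n % p ≡ r [MOD p] := by
      unfold Nat.ModEq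
      rw [Nat.mod_mod]
    rw [h1, hQ.per p n]
  · intro p hp
    by_cases hpw : p ≤ w
    · have h1 : rhoA (QR w r Q) p ≤ p := by
        unfold rhoA
        exact (card_filter_le _ _).trans (by simp)
      omega
    · rw [rhoA_QR_big Q (by omega)]
      exact (hQ.few p hp).trans (by omega)

lemma prod_QR {w y r : ℕ} (hwy : w ≤ y) (hr : ∀ p ∈ pz w, ¬ p ∣ r) (Q : ℕ → ℕ → Prop) :
    ∏ p ∈ pz y, (1 - (rhoA (QR w r Q) p : ℝ) / (p - 1 : ℝ)) = 1 / phW w * Pw Q w y := by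
  rw [← prod_filter_mul_prod_filter_not (pz y) (fun p => w < p), mul_comm]
  congr 1
  · have h1 : (pz y).filter (fun p => ¬ w < p) = pz w := by
      ext p
      rw [mem_filter, mem_pz, mem_pz]
      constructor
      · rintro ⟨⟨_, h2⟩, h3⟩
        exact ⟨by omega, h2⟩
      · rintro ⟨h1, h2⟩
        exact ⟨⟨h1.trans hwy, h2⟩, by omega⟩
    rw [h1]
    unfold phW
    rw [one_div, ← prod_inv_distrib]
    refine prod_congr rfl fun p hp => ?_
    have hpp := (mem_pz.1 hp).2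
    have h2 := rhoA_QR_small Q hpp (mem_pz.1 hp).1 (hr p hp)
    have h3 : (rhoA (QR w r Q) p : ℝ) + 2 = p := by exact_mod_cast h2
    have h4 : (rhoA (QR w r Q) p : ℝ) = p - 2 := by linarith
    have h5 : (2 : ℝ) ≤ p := by exact_mod_cast hpp.two_le
    have h6 : (p : ℝ) - 1 ≠ 0 := by
      have : (0 : ℝ) < p - 1 := by linarith
      exact this.ne'
    rw [h4]
    field_simp
    ring
  · unfold Pw
    refine prod_congr rfl fun p hp => ?_
    rw [rhoA_QR_big Q (mem_filter.1 hp).2]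

open Classical in
theorem xcore (k w : ℕ) (η : ℝ) (hη : 0 < η) : ∃ K : ℕ, 1 ≤ K ∧ ∀ U : ℕ, ∃ x0 : ℕ, ∀ N y : ℕ,
    x0 ≤ y → w ≤ y → y ^ K ≤ N → ∀ r : ℕ, (∀ p ∈ pz w, ¬ p ∣ r) → ∀ Q : ℕ → ℕ → Prop, PerA Q (k + 1) →
    |∑ m ∈ Icc 1 N, (if ∀ p ∈ pz y, w < p → ¬ Q p m then muR w r m else 0) - N / phW w * Pw Q w y| ≤
      η * (N / phW w * Pw Q w y) + N / Real.log N ^ U := by
  obtain ⟨K, hK, h⟩ := lam_fund (k + 1 + w) (by omega) η hη
  refine ⟨K, hK, fun U => ?_⟩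
  obtain ⟨x0, hx0⟩ := h U
  refine ⟨x0, fun N y hy hwy hyN r hr Q hQ => ?_⟩
  have h1 := hx0 N y hy hyN (QR w r Q) (perA_QR w r k Q hQ) N le_rfl
  have h2 : ∑ m ∈ Icc 1 N, (if ∀ p ∈ pz y, w < p → ¬ Q p m then muR w r m else 0) =
      ∑ n ∈ (Icc 1 N).filter (fun n : ℕ => ∀ p ∈ pz y, ¬ QR w r Q p n), ArithmeticFunction.vonMangoldt n := by
    rw [sum_filter]
    refine sum_congr rfl fun m _ => ?_
    have key : (∀ p ∈ pz y, ¬ QR w r Q p m) ↔ (∀ p ∈ pz y, w < p → ¬ Q p m) ∧ (∀ p ∈ pz w, m ≡ r [MOD p]) := by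
      unfold QR
      constructor
      · intro h3
        refine ⟨fun p hp hwp hq => h3 p hp (Or.inr ⟨hwp, hq⟩), fun p hp => ?_⟩
        by_contra h4
        have h5 := mem_pz.1 hp
        exact h3 p (mem_pz.2 ⟨h5.1.trans hwy, h5.2⟩) (Or.inl ⟨h5.1, h4⟩)
      · rintro ⟨h3, h4⟩ p hp h5
        rcases h5 with ⟨h5, h6⟩ | ⟨h5, h6⟩
        · exact h6 (h4 p (mem_pz.2 ⟨h5, (mem_pz.1 hp).2⟩))
        · exact h3 p hp h5 h6
    by_cases ha : ∀ p ∈ pz y, w < p → ¬ Q p m
    · rw [if_pos ha]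
      unfold muR
      by_cases hb : ∀ p ∈ pz w, m ≡ r [MOD p]
      · rw [if_pos hb, if_pos (key.2 ⟨ha, hb⟩)]
      · rw [if_neg hb, if_neg (fun h4 => hb (key.1 h4).2)]
    · rw [if_neg ha, if_neg (fun h4 => ha (key.1 h4).1)]
  have h3 : (N : ℝ) * ∏ p ∈ pz y, (1 - (rhoA (QR w r Q) p : ℝ) / (p - 1 : ℝ)) = N / phW w * Pw Q w y := by
    rw [prod_QR hwy hr Q]
    ring
  rw [h3] at h1
  rw [h2]
  exact h1

lemma W_dvd {w p : ℕ} (hp : p ∈ pz w) (r : ℕ) : p ∣ r + ((∏ q ∈ pz w, q) - 1) * r := by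
  have h1 : r + ((∏ q ∈ pz w, q) - 1) * r = (∏ q ∈ pz w, q) * r := by
    have h2 : 0 < ∏ q ∈ pz w, q := prod_pos fun _ hq => (mem_pz.1 hq).2.pos
    obtain ⟨W, hW⟩ : ∃ W, W + 1 = ∏ q ∈ pz w, q := ⟨(∏ q ∈ pz w, q) - 1, by omega⟩
    rw [← hW, Nat.add_sub_cancel]
    ring
  rw [h1]
  exact Dvd.dvd.mul_right (dvd_prod_of_mem _ hp) r

theorem xcntR (k w : ℕ) (hw : 2 ≤ w) (η : ℝ) (hη : 0 < η) : ∃ K : ℕ, 1 ≤ K ∧ ∀ U : ℕ, ∃ x0 : ℕ, ∀ᶠ N : ℕ in atTop,
    ∀ y : ℕ, x0 ≤ y → w ≤ y → y ^ K ≤ N → ∀ r : ℕ, (∀ p ∈ pz w, ¬ p ∣ r) → ∀ H : ℕ, ∀ T ⊆ AB w (bG w r N) H, T.card ≤ k →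
    |Fs (muR w r) N y T - N / phW w * Pw (QW (sh N T)) w y| ≤
      η * (N / phW w * Pw (QW (sh N T)) w y) + N / Real.log N ^ U := by
  classical
  obtain ⟨K, hK, h⟩ := xcore k w η hη
  refine ⟨K, hK, fun U => ?_⟩
  obtain ⟨x0, hx0⟩ := h U
  refine ⟨x0, Eventually.of_forall fun N y hy hwy hyN r hr H T hT hTk => ?_⟩
  have h1 := hx0 N y hy hwy hyN r hr (QW (sh N T)) (perA_QW _ k (by rw [card_sh]; exact hTk))
  have h2 : Fs (muR w r) N y T =
      ∑ m ∈ Icc 1 N, (if ∀ p ∈ pz y, w < p → ¬ QW (sh N T) p m then muR w r m else 0) := by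
    unfold Fs
    refine sum_congr rfl fun m hm => ?_
    have hmN := (mem_Icc.1 hm).2
    by_cases hb : ∀ p ∈ pz w, m ≡ r [MOD p]
    · have key : (∀ p ∈ pz y, w < p → ¬ QW (sh N T) p m) ↔ ∀ t ∈ T, Ro y (N - m + t) := by
        unfold QW sh Ro
        constructor
        · intro h3 t ht p hp hpy hd
          by_cases hpw : p ≤ w
          · have hpz : p ∈ pz w := mem_pz.2 ⟨hpw, hp⟩
            have h4 := (mem_filter.1 (hT ht)).2 p hpz
            apply h4
            unfold bG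
            have h5 : (N - m + t) + m ≡ 0 + m [MOD p] := ((Nat.modEq_zero_iff_dvd).2 hd).add_right m
            rw [show N - m + t + m = t + N by omega, Nat.zero_add] at h5
            have h6 : t + N ≡ r [MOD p] := h5.trans (hb p hpz)
            have h7 : t + (N + ((∏ q ∈ pz w, q) - 1) * r) ≡ r + ((∏ q ∈ pz w, q) - 1) * r [MOD p] := by
              rw [← add_assoc]
              exact h6.add_right _
            exact (Nat.modEq_zero_iff_dvd).1 (h7.trans ((Nat.modEq_zero_iff_dvd).2 (W_dvd hpz r)))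
          · refine h3 p (mem_pz.2 ⟨hpy, hp⟩) (by omega) ⟨t + N, mem_image_of_mem _ ht, ?_⟩
            refine ((Nat.modEq_iff_dvd' (by omega)).2 ?_).symm
            rwa [show t + N - m = N - m + t by omega]
        · rintro h3 p hp _ ⟨s, hs, hsm⟩
          obtain ⟨t, ht, rfl⟩ := mem_image.1 hs
          refine h3 t ht p (mem_pz.1 hp).2 (mem_pz.1 hp).1 ?_
          have := (Nat.modEq_iff_dvd' (by omega)).1 hsm.symm
          rwa [show t + N - m = N - m + t by omega] at this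
      by_cases hh : ∀ t ∈ T, Ro y (N - m + t)
      · rw [if_pos (key.2 hh), prod_eq_one, mul_one]
        intro t ht
        unfold ro
        rw [if_pos (hh t ht)]
      · rw [if_neg (fun h4 => hh (key.1 h4))]
        push Not at hh
        obtain ⟨t, ht, hn⟩ := hh
        rw [prod_eq_zero ht, mul_zero]
        unfold ro
        rw [if_neg hn]
    · have h3 : muR w r m = 0 := by
        unfold muR
        rw [if_neg hb]
      rw [h3, zero_mul, ite_self]
  rw [h2]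
  exact h1

/-- forbidden classes: one of the `n + t` is divisible by `p` -/
def QP (T : Finset ℕ) (p n : ℕ) : Prop := ∃ t ∈ T, p ∣ n + t

lemma rhoA_QP (T : Finset ℕ) {p : ℕ} (hp : p.Prime) : rhoA (QP T) p = rhoA (QW (sh 0 T)) p := by
  classical
  have hs : sh 0 T = T := by
    unfold sh
    simp
  rw [hs]
  unfold rhoA
  refine card_bij (fun s _ => p - s) ?_ ?_ ?_
  · intro s hs
    rw [mem_filter, mem_range] at hs ⊢
    obtain ⟨h1, h2, t, ht, h3⟩ := hs
    have h0 : s ≠ 0 := by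
      rintro rfl
      exact h2 (dvd_zero p)
    refine ⟨by omega, fun h4 => ?_, t, ht, ?_⟩
    · have := Nat.le_of_dvd (by omega) h4
      omega
    · have h5 : s + t ≡ s + (p - s) [MOD p] := by
        rw [show s + (p - s) = p by omega]
        exact ((Nat.modEq_zero_iff_dvd).2 h3).trans ((Nat.modEq_zero_iff_dvd).2 (dvd_refl p)).symm
      exact Nat.ModEq.add_left_cancel' s h5
  · intro s hs s' hs' h
    rw [mem_filter, mem_range] at hs hs'
    have h1 := hs.1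
    have h2 := hs'.1
    omega
  · intro s hs
    rw [mem_filter, mem_range] at hs
    obtain ⟨h1, h2, t, ht, h3⟩ := hs
    have h0 : s ≠ 0 := by
      rintro rfl
      exact h2 (dvd_zero p)
    refine ⟨p - s, ?_, by omega⟩
    rw [mem_filter, mem_range]
    refine ⟨by omega, fun h4 => ?_, t, ht, ?_⟩
    · have := Nat.le_of_dvd (by omega) h4
      omega
    · have h5 : p - s + t ≡ p - s + s [MOD p] := h3.add_left _
      rw [show p - s + s = p by omega] at h5
      exact (Nat.modEq_zero_iff_dvd).1 (h5.trans ((Nat.modEq_zero_iff_dvd).2 (dvd_refl p)))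

lemma perA_QP (T : Finset ℕ) (k : ℕ) (hT : T.card ≤ k) : PerA (QP T) (k + 1) := by
  constructor
  · intro p n
    unfold QP
    refine exists_congr fun t => and_congr_right fun _ => ?_
    have h : n + t ≡ n % p + t [MOD p] := (Nat.mod_modEq n p).symm.add_right t
    rw [← Nat.modEq_zero_iff_dvd, ← Nat.modEq_zero_iff_dvd]
    exact ⟨fun h1 => h.symm.trans h1, fun h1 => h.trans h1⟩
  · intro p hp
    rw [rhoA_QP T hp]
    exact (perA_QW (sh 0 T) k (by rw [card_sh]; exact hT)).few p hp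

theorem xcntRT (k w : ℕ) (hw : 2 ≤ w) (η : ℝ) (hη : 0 < η) : ∃ K : ℕ, 1 ≤ K ∧ ∀ U : ℕ, ∃ x0 : ℕ, ∀ᶠ N : ℕ in atTop,
    ∀ y : ℕ, x0 ≤ y → w ≤ y → y ^ K ≤ N → ∀ r : ℕ, (∀ p ∈ pz w, ¬ p ∣ r) → ∀ H : ℕ, ∀ T ⊆ AB w r H, T.card ≤ k →
    |Ft (muR w r) N y T - N / phW w * Pw (QW (sh 0 T)) w y| ≤
      η * (N / phW w * Pw (QW (sh 0 T)) w y) + N / Real.log N ^ U := by
  classical
  obtain ⟨K, hK, h⟩ := xcore k w η hη
  refine ⟨K, hK, fun U => ?_⟩
  obtain ⟨x0, hx0⟩ := h U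
  refine ⟨x0, Eventually.of_forall fun N y hy hwy hyN r hr H T hT hTk => ?_⟩
  have h1 := hx0 N y hy hwy hyN r hr (QP T) (perA_QP T k hTk)
  have hP : Pw (QP T) w y = Pw (QW (sh 0 T)) w y := by
    unfold Pw
    refine prod_congr rfl fun p hp => ?_
    rw [rhoA_QP T (mem_pz.1 (mem_filter.1 hp).1).2]
  have h2 : Ft (muR w r) N y T =
      ∑ m ∈ Icc 1 N, (if ∀ p ∈ pz y, w < p → ¬ QP T p m then muR w r m else 0) := by
    unfold Ft
    refine sum_congr rfl fun m hm => ?_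
    by_cases hb : ∀ p ∈ pz w, m ≡ r [MOD p]
    · have key : (∀ p ∈ pz y, w < p → ¬ QP T p m) ↔ ∀ t ∈ T, Ro y (m + t) := by
        unfold QP Ro
        constructor
        · intro h3 t ht p hp hpy hd
          by_cases hpw : p ≤ w
          · have hpz : p ∈ pz w := mem_pz.2 ⟨hpw, hp⟩
            apply (mem_filter.1 (hT ht)).2 p hpz
            have h5 : t + r ≡ m + t [MOD p] := by
              rw [add_comm m t]
              exact (hb p hpz).symm.add_left t
            exact (Nat.modEq_zero_iff_dvd).1 (h5.trans ((Nat.modEq_zero_iff_dvd).2 hd))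
          · exact h3 p (mem_pz.2 ⟨hpy, hp⟩) (by omega) ⟨t, ht, hd⟩
        · rintro h3 p hp _ ⟨t, ht, hd⟩
          exact h3 t ht p (mem_pz.1 hp).2 (mem_pz.1 hp).1 hd
      by_cases hh : ∀ t ∈ T, Ro y (m + t)
      · rw [if_pos (key.2 hh), prod_eq_one, mul_one]
        intro t ht
        unfold ro
        rw [if_pos (hh t ht)]
      · rw [if_neg (fun h4 => hh (key.1 h4))]
        push Not at hh
        obtain ⟨t, ht, hn⟩ := hh
        rw [prod_eq_zero ht, mul_zero]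
        unfold ro
        rw [if_neg hn]
    · have h3 : muR w r m = 0 := by
        unfold muR
        rw [if_neg hb]
      rw [h3, zero_mul, ite_self]
  rw [h2, ← hP]
  exact h1

end Pool.Agent.J4.H14.GD
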